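import Pool.Agent.H38.Sac.Cmp

open Pool.Agent.H38.NP Pool.Agent.H38.Sac

theorem Pool.Agent.Results.MP_cb63a5_lc.Hard.result :
    NPHardOn
      (fun p : ℕ × List (ℕ × ℕ) × ℕ => 0 < p.2.2 ∧ p.2.2 ≤ p.1 ∧ (graphOf p.1 p.2.1).Colorable 2)
      fun p => SAC (graphOf p.1 p.2.1) p.2.2 :=
  sac_nph.npHardOn
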